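import Pool.Agent.Q142.LX.Met
set_option autoImplicit false

namespace Pool.Agent.Results.MP_8476ae_an.LinearDimension

/-- The sequence `x` belongs to `ℓ_p(X)`. -/
def InLp {X : Type} [NormedAddCommGroup X] (p : ℝ) (x : ℕ → X) : Prop :=
  Summable fun m => ‖x m‖ ^ p

/-- The norm `(∑ ‖x_m‖^p)^{1/p}` of `ℓ_p(X)`. -/
noncomputable def lpNorm {X : Type} [NormedAddCommGroup X] (p : ℝ) (x : ℕ → X) : ℝ :=
  (∑' m, ‖x m‖ ^ p) ^ (1 / p)

/-- The metric space `M` embeds with bi-Lipschitz distortion `D` into `ℓ_p(X)`. -/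
def Embeds (M : Type) [MetricSpace M] (p D : ℝ) (X : Type) [NormedAddCommGroup X] : Prop :=
  ∃ f : M → ℕ → X, (∀ x, InLp p (f x)) ∧
    ∀ x y, dist x y ≤ lpNorm p (fun m => f x m - f y m) ∧
      lpNorm p (fun m => f x m - f y m) ≤ D * dist x y

/-- Q1 of the problem: there is a universal constant `C ≥ 1` such that for all real `p, D ≥ 1` and
all large `n`, every `n`-point metric space embeds with distortion `D` into `ℓ_p(X)` for some real
normed space `X` of dimension at most `n^{C/(pD)}`. -/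
def Question1 : Prop :=
  ∃ C : ℝ, 1 ≤ C ∧ ∀ p D : ℝ, 1 ≤ p → 1 ≤ D → ∃ n₀ : ℕ, ∀ n : ℕ, n₀ ≤ n →
    ∀ (M : Type) [MetricSpace M] [Fintype M], Fintype.card M = n →
      ∃ (X : Type) (_ : NormedAddCommGroup X) (_ : NormedSpace ℝ X), FiniteDimensional ℝ X ∧
        (Module.finrank ℝ X : ℝ) ≤ (n : ℝ) ^ (C / (p * D)) ∧ Embeds M p D X

/-- For every `n = 4 · 2^r` there is an `n`-point metric space `M` such that for all real `p ≥ 2`
and `1 ≤ D < 2`: if `M` embeds with distortion `D` into `ℓ_p(X)`, `X` a finite-dimensional real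
normed space, then `dim X ≥ c(p,D) · n` with `c(p,D) = ((2-D)/(4 D^p))^{2p} / 4 > 0`. In
particular the answer to Q1 is negative. -/
theorem result :
    (∀ r : ℕ, ∃ (M : Type) (_ : MetricSpace M) (_ : Fintype M), Fintype.card M = 4 * 2 ^ r ∧
      ∀ p D : ℝ, 2 ≤ p → 1 ≤ D → D < 2 →
        ∀ (X : Type) [NormedAddCommGroup X] [NormedSpace ℝ X] [FiniteDimensional ℝ X],
          Embeds M p D X →
            ((2 - D) / (4 * D ^ p)) ^ (2 * p) / 4 * Fintype.card M ≤ Module.finrank ℝ X) ∧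
    ¬ Question1 := by
  have main : ∀ r : ℕ, ∃ (M : Type) (_ : MetricSpace M) (_ : Fintype M),
      Fintype.card M = 4 * 2 ^ r ∧
      ∀ p D : ℝ, 2 ≤ p → 1 ≤ D → D < 2 →
        ∀ (X : Type) [NormedAddCommGroup X] [NormedSpace ℝ X] [FiniteDimensional ℝ X],
          Embeds M p D X →
            ((2 - D) / (4 * D ^ p)) ^ (2 * p) / 4 * Fintype.card M ≤ Module.finrank ℝ X := by
    intro r
    have hcard : Fintype.card (((Fin r → Bool) × Bool) ⊕ ((Fin r → Bool) × Bool)) = 4 * 2 ^ r := by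
      simp; ring
    refine ⟨((Fin r → Bool) × Bool) ⊕ ((Fin r → Bool) × Bool), Q142LX.met (Q142LX.hb r),
      inferInstance, hcard, ?_⟩
    intro p D hp hD1 hD2 X _ _ _ hE
    obtain ⟨f, hs, hf⟩ := hE
    have h := Q142LX.lower hp hD1 hD2 r f hs (fun x y => (hf x y).1) (fun x y => (hf x y).2)
    have hDp : 0 < D ^ p := Real.rpow_pos_of_pos (by linarith) _
    have h2D : 0 < 2 - D := by linarith
    have hpos : 0 < 4 * D ^ p / (2 - D) := by positivity
    have hinv : (2 - D) / (4 * D ^ p) = (4 * D ^ p / (2 - D))⁻¹ := by rw [inv_div]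
    rw [hinv, Real.inv_rpow hpos.le, hcard]
    have hq : 0 < (4 * D ^ p / (2 - D)) ^ (2 * p) := Real.rpow_pos_of_pos hpos _
    push_cast
    rw [div_mul_eq_mul_div, div_le_iff₀ (by norm_num), inv_mul_le_iff₀ hq]
    nlinarith [h]
  refine ⟨main, ?_⟩
  rintro ⟨C, hC, hQ⟩
  obtain ⟨n₀, hn₀⟩ := hQ (2 * C) 1 (by linarith) le_rfl
  set c : ℝ := ((2 - 1) / (4 * (1:ℝ) ^ (2 * C))) ^ (2 * (2 * C)) with hc
  have hcpos : 0 < c := by
    apply Real.rpow_pos_of_pos
    rw [Real.one_rpow]; norm_num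
  obtain ⟨r, hr⟩ := exists_nat_gt (max (n₀ : ℝ) (4 / c ^ 2))
  have hr1 : (n₀ : ℝ) < r := lt_of_le_of_lt (le_max_left _ _) hr
  have hr2 : 4 / c ^ 2 < r := lt_of_le_of_lt (le_max_right _ _) hr
  have hr3 : (r : ℝ) < 2 ^ r := by exact_mod_cast Nat.lt_two_pow_self
  obtain ⟨M, hM, hF, hcard, hmain⟩ := main r
  have hn : n₀ ≤ 4 * 2 ^ r := by
    have h1 : (n₀ : ℝ) ≤ ((4 * 2 ^ r : ℕ) : ℝ) := by
      push_cast
      nlinarith
    exact_mod_cast h1
  obtain ⟨X, _, _, hfin, hdim, hE⟩ := hn₀ (4 * 2 ^ r) hn M hcard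
  have h3 := hmain (2 * C) 1 (by linarith) le_rfl (by norm_num) X hE
  rw [hcard, ← hc] at h3
  have hexp : C / (2 * C * 1) = 1 / 2 := by
    have : C ≠ 0 := by linarith
    field_simp
  rw [hexp, ← Real.sqrt_eq_rpow] at hdim
  have h4 : c / 4 * ((4 * 2 ^ r : ℕ) : ℝ) ≤ Real.sqrt ((4 * 2 ^ r : ℕ) : ℝ) := h3.trans hdim
  set n : ℝ := ((4 * 2 ^ r : ℕ) : ℝ) with hndef
  have hn4 : n = 4 * 2 ^ r := by rw [hndef]; push_cast; rfl
  have hn0 : 0 < n := by rw [hn4]; positivity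
  have h5 : (c / 4 * n) ^ 2 ≤ n := by
    have := pow_le_pow_left₀ (by positivity) h4 2
    rwa [Real.sq_sqrt hn0.le] at this
  have h6 : c ^ 2 * n ≤ 16 := by
    have h7 : n * (c ^ 2 * n) ≤ n * 16 := by nlinarith [h5]
    exact le_of_mul_le_mul_left h7 hn0
  have h8 : 4 < c ^ 2 * r := by
    rw [div_lt_iff₀ (by positivity)] at hr2
    linarith
  have h9 : c ^ 2 * (r : ℝ) < c ^ 2 * 2 ^ r := mul_lt_mul_of_pos_left hr3 (by positivity)
  rw [hn4] at h6
  nlinarith [h6, h8, h9]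

end Pool.Agent.Results.MP_8476ae_an.LinearDimension
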